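import Pool.Agent.Helper815.Coll.Avg3

/-!
The lower half of the conjectured average order of the 3x+1 total stopping time.
-/

set_option autoImplicit false

namespace Pool.Agent.Results.MP_529d88_nt.LowerHalf

open scoped ENNReal Topology
open Filter

/-- The `3x+1` function. -/
def T (n : ℕ) : ℕ := if n % 2 = 0 then n / 2 else (3 * n + 1) / 2

open Classical in
/-- The total stopping time `σ_∞(n)`: the least `k ≥ 0` with `T^(k)(n) = 1`, and `∞` if there is
none. -/
noncomputable def sigma (n : ℕ) : ℕ∞ :=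
  if h : ∃ k : ℕ, T^[k] n = 1 then ((Nat.find h : ℕ) : ℕ∞) else ⊤

/-- The average `(1/x) ∑_{1 ≤ n ≤ x} σ_∞(n)` as an element of `[0, ∞]`. -/
noncomputable def average (x : ℝ) : ℝ≥0∞ :=
  (∑ n ∈ Finset.Icc 1 ⌊x⌋₊, (sigma n : ℝ≥0∞)) / ENNReal.ofReal x

/-- The average `(1/x) ∑_{1 ≤ n ≤ x} σ_∞(n)` as a real number (used only when all the
`σ_∞(n)` are finite). -/
noncomputable def averageReal (x : ℝ) : ℝ :=
  (∑ n ∈ Finset.Icc 1 ⌊x⌋₊, ((sigma n).toNat : ℝ)) / x

theorem floor_bound (x : ℝ) (hx : 3 ≤ x) :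
    x * Real.log x - Real.log x - 1 ≤ (⌊x⌋₊ : ℝ) * Real.log (⌊x⌋₊ : ℝ) := by
  have h1 : x - 1 < (⌊x⌋₊ : ℝ) := Nat.sub_one_lt_floor x
  have h2 : 0 < x - 1 := by linarith
  have h3 : Real.log (x - 1) ≤ Real.log (⌊x⌋₊ : ℝ) := Real.log_le_log h2 h1.le
  have h4 : Real.log x - Real.log (x - 1) ≤ 1 / (x - 1) := by
    rw [← Real.log_div (by linarith) h2.ne']
    refine (Real.log_le_sub_one_of_pos (div_pos (by linarith) h2)).trans (le_of_eq ?_)
    field_simp
    ring
  have h5 : 0 ≤ Real.log (x - 1) := Real.log_nonneg (by linarith)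
  have h6 : (x - 1) * Real.log (x - 1) ≤ (⌊x⌋₊ : ℝ) * Real.log (⌊x⌋₊ : ℝ) :=
    mul_le_mul h1.le h3 h5 (by positivity)
  have h7 : (x - 1) * (Real.log x - Real.log (x - 1)) ≤ 1 := by
    have := mul_le_mul_of_nonneg_left h4 h2.le
    rwa [mul_one_div_cancel h2.ne'] at this
  nlinarith

theorem lower (B : ℝ) (hB : B < 2 / Real.log (4 / 3)) :
    ∀ᶠ x : ℝ in atTop, ENNReal.ofReal (B * Real.log x) ≤ average x := by
  have hM : 0 < Real.log (4 / 3) := Real.log_pos (by norm_num)
  have h0 : max B 0 < 2 / Real.log (4 / 3) := max_lt hB (by positivity)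
  obtain ⟨B', hB1, hB2⟩ := exists_between h0
  have hB0 : 0 < B' := (le_max_right _ _).trans_lt hB1
  have hBB : B < B' := (le_max_left _ _).trans_lt hB1
  obtain ⟨X, hX⟩ := Pool.Agent.Helper815.Coll.core_avg (B := B')
    (by rwa [lt_div_iff₀ hM] at hB2)
  filter_upwards [eventually_ge_atTop (3 : ℝ), eventually_ge_atTop ((X : ℝ) + 1),
    eventually_ge_atTop (2 * B' / (B' - B))] with x hx3 hxX hxB
  have hx0 : 0 < x := by linarith
  have hXN : X ≤ ⌊x⌋₊ := Nat.le_floor (by linarith)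
  obtain ⟨β, hβ, hs⟩ := hX ⌊x⌋₊ hXN
  have hlog : 1 ≤ Real.log x := by
    rw [Real.le_log_iff_exp_le hx0]
    have := Real.exp_one_lt_d9
    linarith
  have hreal : B * Real.log x * x ≤ ∑ n ∈ Finset.Icc 1 ⌊x⌋₊, β n := by
    refine le_trans ?_ hs
    have h1 := mul_le_mul_of_nonneg_left (floor_bound x hx3) hB0.le
    rw [div_le_iff₀ (by linarith)] at hxB
    have h2 : 2 * B' * Real.log x ≤ x * (B' - B) * Real.log x :=
      mul_le_mul_of_nonneg_right hxB (by linarith)
    have h3 : B' * 1 ≤ B' * Real.log x := mul_le_mul_of_nonneg_left hlog hB0.le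
    nlinarith
  unfold average
  rw [ENNReal.le_div_iff_mul_le (Or.inl (by
    rw [Ne, ENNReal.ofReal_eq_zero]; exact not_le.2 hx0)) (Or.inl ENNReal.ofReal_ne_top)]
  have hsum : ENNReal.ofReal (∑ n ∈ Finset.Icc 1 ⌊x⌋₊, β n) ≤
      ∑ n ∈ Finset.Icc 1 ⌊x⌋₊, (sigma n : ℝ≥0∞) := by
    rw [ENNReal.ofReal_sum_of_nonneg (fun n hn => (hβ n hn).1)]
    apply Finset.sum_le_sum
    intro n hn
    unfold sigma
    split_ifs with h
    · have h3 := (hβ n hn).2 _ (Nat.find_spec h)
      rw [ENat.toENNReal_coe, ← ENNReal.ofReal_natCast]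
      exact ENNReal.ofReal_le_ofReal h3
    · simp
  refine le_trans ?_ hsum
  rw [← ENNReal.ofReal_mul' hx0.le]
  exact ENNReal.ofReal_le_ofReal hreal

theorem average_eq (hconj : ∀ n : ℕ, 1 ≤ n → ∃ k : ℕ, T^[k] n = 1) (x : ℝ) (hx : 0 < x) :
    average x = ENNReal.ofReal (averageReal x) := by
  unfold average averageReal
  rw [ENNReal.ofReal_div_of_pos hx, ENNReal.ofReal_sum_of_nonneg (fun n _ => by positivity)]
  congr 1
  apply Finset.sum_congr rfl
  intro n hn
  have hn1 : 1 ≤ n := (Finset.mem_Icc.1 hn).1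
  unfold sigma
  rw [dif_pos (hconj n hn1)]
  simp

theorem density (B : ℝ) (hB : B < 2 / Real.log (4 / 3)) (A : ℕ) :
    ∀ᶠ x : ℕ in atTop,
      (({n : ℕ | 1 ≤ n ∧ n ≤ x ∧ (sigma n : ℝ≥0∞) < ENNReal.ofReal (B * Real.log n)}.ncard : ℕ) : ℝ)
        ≤ x / Real.log x ^ A := by
  classical
  have hM : 0 < Real.log (4 / 3) := Real.log_pos (by norm_num)
  obtain ⟨X, hX⟩ := Pool.Agent.Helper815.Coll.core_density (B := B)
    (by rwa [lt_div_iff₀ hM] at hB) A
  filter_upwards [eventually_ge_atTop X, eventually_ge_atTop 2] with x hx hx2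
  have hlog : 0 < Real.log (x : ℝ) := Real.log_pos (by exact_mod_cast hx2)
  rw [le_div_iff₀ (by positivity)]
  refine le_trans (mul_le_mul_of_nonneg_right ?_ (by positivity)) (hX x hx)
  rw [Nat.cast_le]
  rw [← Set.ncard_coe_finset]
  refine Set.ncard_le_ncard ?_ (Finset.finite_toSet _)
  intro n hn
  obtain ⟨h1, h2, h3⟩ := hn
  rw [Finset.mem_coe, Finset.mem_filter, Finset.mem_Icc]
  refine ⟨⟨h1, h2⟩, ?_⟩
  unfold sigma at h3
  split_ifs at h3 with h
  · refine ⟨Nat.find h, Nat.find_spec h, ?_⟩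
    rw [ENat.toENNReal_coe, ← ENNReal.ofReal_natCast] at h3
    exact (ENNReal.ofReal_lt_ofReal_iff_of_nonneg (by positivity)).1 h3
  · simp at h3

/-- (1) For every real `B < 2/log(4/3)`: `(1/x) ∑_{n ≤ x} σ_∞(n) ≥ B log x` for all large real `x`
(no hypothesis).  (2) In particular the liminf of the ratio average / log x is at least
`2/log(4/3)`.  (3) For every real `B < 2/log(4/3)` and every `A`, at most `x/(log x)^A` integers
`1 ≤ n ≤ x` have `σ_∞(n) < B log n`, for all large `x` (no hypothesis).  (4) If the `3x+1`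
conjecture holds then the asymptotic relation of Q1 is equivalent to its upper half. -/
theorem result :
    (∀ B : ℝ, B < 2 / Real.log (4 / 3) →
      ∀ᶠ x : ℝ in atTop, ENNReal.ofReal (B * Real.log x) ≤ average x) ∧
    (ENNReal.ofReal (2 / Real.log (4 / 3)) ≤
      liminf (fun x : ℝ => average x / ENNReal.ofReal (Real.log x)) atTop) ∧
    (∀ B : ℝ, B < 2 / Real.log (4 / 3) → ∀ A : ℕ, ∀ᶠ x : ℕ in atTop,
      (({n : ℕ | 1 ≤ n ∧ n ≤ x ∧
          (sigma n : ℝ≥0∞) < ENNReal.ofReal (B * Real.log n)}.ncard : ℕ) : ℝ)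
        ≤ x / Real.log x ^ A) ∧
    ((∀ n : ℕ, 1 ≤ n → ∃ k : ℕ, T^[k] n = 1) →
      ((∀ B : ℝ, B < 2 / Real.log (4 / 3) →
        ∀ᶠ x : ℝ in atTop, B * Real.log x ≤ averageReal x) ∧
      (Tendsto (fun x : ℝ => averageReal x / (2 / Real.log (4 / 3) * Real.log x)) atTop (𝓝 1) ↔
        ∀ A : ℝ, 2 / Real.log (4 / 3) < A →
          ∀ᶠ x : ℝ in atTop, averageReal x ≤ A * Real.log x))) := by
  have hM : 0 < Real.log (4 / 3) := Real.log_pos (by norm_num)
  set c : ℝ := 2 / Real.log (4 / 3) with hc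
  have hc0 : 0 < c := by positivity
  refine ⟨lower, ?_, density, fun hconj => ?_⟩
  · refine le_of_forall_lt fun a ha => ?_
    -- `a < ofReal c`; choose a real `B` with `a < ofReal B < ofReal c`
    obtain ⟨b, hab, hbc⟩ := exists_between ha
    have hbtop : b ≠ ⊤ := ne_top_of_lt hbc
    have hb : b.toReal < c := by
      rw [← ENNReal.ofReal_toReal hbtop] at hbc
      exact (ENNReal.ofReal_lt_ofReal_iff hc0).1 hbc
    refine lt_of_lt_of_le hab ?_
    refine le_liminf_of_le (by isBoundedDefault) ?_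
    filter_upwards [lower b.toReal hb, eventually_gt_atTop (1 : ℝ)] with x hx hx1
    have hlog : 0 < Real.log x := Real.log_pos hx1
    rw [ENNReal.le_div_iff_mul_le (Or.inl (by
      rw [Ne, ENNReal.ofReal_eq_zero]; exact not_le.2 hlog)) (Or.inl ENNReal.ofReal_ne_top)]
    calc b * ENNReal.ofReal (Real.log x)
        = ENNReal.ofReal (b.toReal * Real.log x) := by
          rw [ENNReal.ofReal_mul ENNReal.toReal_nonneg, ENNReal.ofReal_toReal hbtop]
      _ ≤ average x := hx
  · have hlow : ∀ B : ℝ, B < c → ∀ᶠ x : ℝ in atTop, B * Real.log x ≤ averageReal x := by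
      intro B hB
      filter_upwards [lower B hB, eventually_gt_atTop (0 : ℝ)] with x hx hx0
      rw [average_eq hconj x hx0] at hx
      have hn : 0 ≤ averageReal x := by
        unfold averageReal
        positivity
      exact (ENNReal.ofReal_le_ofReal_iff hn).1 hx
    refine ⟨hlow, fun h A hA => ?_, fun h => ?_⟩
    · have h1 : (1 : ℝ) < A / c := by rw [lt_div_iff₀ hc0]; linarith
      filter_upwards [h.eventually (gt_mem_nhds h1), eventually_gt_atTop (1 : ℝ)] with x hx hx1
      have hlog : 0 < Real.log x := Real.log_pos hx1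
      rw [div_lt_div_iff₀ (by positivity) hc0] at hx
      have h2 : averageReal x * c ≤ (A * Real.log x) * c := by nlinarith
      exact le_of_mul_le_mul_right h2 hc0
    · rw [tendsto_order]
      refine ⟨fun a ha => ?_, fun a ha => ?_⟩
      · have h1 : (a + 1) / 2 * c < c := by nlinarith
        filter_upwards [hlow _ h1, eventually_gt_atTop (1 : ℝ)] with x hx hx1
        have hlog : 0 < Real.log x := Real.log_pos hx1
        rw [lt_div_iff₀ (by positivity)]
        have : 0 < c * Real.log x := by positivity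
        nlinarith
      · have h1 : c < (a + 1) / 2 * c := by nlinarith
        filter_upwards [h _ h1, eventually_gt_atTop (1 : ℝ)] with x hx hx1
        have hlog : 0 < Real.log x := Real.log_pos hx1
        rw [div_lt_iff₀ (by positivity)]
        have : 0 < c * Real.log x := by positivity
        nlinarith

end Pool.Agent.Results.MP_529d88_nt.LowerHalf
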